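import Mathlib
import Pool.Agent.H27.Buo

namespace Pool.Agent.Results.MP_55c50e_an.NotComplete

open Pool.Agent.H27.Buo

theorem result (p : ℝ) (hp : 1 < p) : ∃ x : ℕ → ℕ → ℝ, (∀ n, InLp p (x n)) ∧ BuoCauchy p x ∧
    ∀ e, InLp p e → ¬ OrdConv p x e :=
  ⟨xx p, xx_mem hp, xx_cauchy hp, xx_not hp⟩

end Pool.Agent.Results.MP_55c50e_an.NotComplete
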